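import Pool.Agent.helper240_AS.Final

/-!
# Deciding arc-disjoint antistrong and strongly connected spanning subdigraphs is NP-complete
-/

namespace Pool.Agent.Results.MP_c99d13_lc.AntistrongStrongNPC

/-- Given a digraph (by its adjacency matrix), deciding whether it has two arc-disjoint spanning
subdigraphs, one antistrong and the other strongly connected, is NP-complete: it is in NP and
NP-hard under polynomial-time many-one reductions. -/
theorem result : Pool.Agent.NPC.InNPP Helper240AS.AntistrongStrong ∧
    Pool.Agent.NPC.NPHardP Helper240AS.AntistrongStrong :=
  ⟨Helper240AS.inNPP_AntistrongStrong, Helper240AS.hardI_AntistrongStrong.toNPHardP⟩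

end Pool.Agent.Results.MP_c99d13_lc.AntistrongStrongNPC
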